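import Pool.Agent.Lib.MP_95d09c_al.Retired.KrullOnePrimes

/-!
Left Krull dimension at most two gives the hypothesis of `KrullOnePrimes`.
-/

set_option autoImplicit false

namespace Pool.Agent.Lib.MP_95d09c_al.K2

open CategoryTheory Pool.Agent.Lib.MP_95d09c_al.Retired.KrullOnePrimes

theorem primes_of_krull_two {R : Type} [Ring R] [IsNoetherianRing R] (h : KrullLE R 2 R)
    (P Q : TwoSidedIdeal R) (hP : IsPrimeIdeal P) (hPQ : P < Q) :
    KrullLE R 1 (R ⧸ Q.asIdeal) := by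
  obtain ⟨a, haQ, haP⟩ := SetLike.exists_of_lt hPQ
  obtain ⟨c, hc, hc'⟩ := exists_reg_ideal (P := P) hP haQ haP
  have h1 : KrullLE R 2 (R ⧸ lsub P) := KrullLE.of_surj 2 _ (lsub P).mkQ_surjective h
  have h2 := h1.coker (rho P c) (rho_inj hc')
  let g : (R ⧸ lsub P) →ₗ[R] (R ⧸ lsub Q) :=
    (lsub P).mapQ (lsub Q) LinearMap.id fun x hx => hPQ.le hx
  refine KrullLE.of_surj 1 ((LinearMap.range (rho P c)).liftQ g ?_) ?_ h2
  · rintro _ ⟨q, rfl⟩
    obtain ⟨x, rfl⟩ := (lsub P).mkQ_surjective q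
    exact mk_eq_zero.2 (Q.mul_mem_left x c hc)
  · intro q
    obtain ⟨x, rfl⟩ := (lsub Q).mkQ_surjective q
    exact ⟨Submodule.Quotient.mk ((lsub P).mkQ x), rfl⟩

/-- A regular local ring of left Krull dimension at most two is a domain. -/
theorem domain_of_krull_two (R : Type) [Ring R] (h0 : IsLocalRing R) (h1 : IsNoetherianRing R)
    (h2 : IsNoetherianRing Rᵐᵒᵖ)
    (hL : ∃ n : ℕ, ∀ M : ModuleCat.{0} R, ∃ (P : ℕ → ModuleCat.{0} R)
      (d : ∀ i : ℕ, P (i + 1) ⟶ P i) (ε : P 0 ⟶ M),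
      (∀ i, Module.Projective R (P i)) ∧ Function.Surjective ε.hom ∧
      LinearMap.range (d 0).hom = LinearMap.ker ε.hom ∧
      (∀ i, LinearMap.range (d (i + 1)).hom = LinearMap.ker (d i).hom) ∧
      (∀ i, n < i → Subsingleton (P i)))
    (hR : ∃ n : ℕ, ∀ M : ModuleCat.{0} Rᵐᵒᵖ, ∃ (P : ℕ → ModuleCat.{0} Rᵐᵒᵖ)
      (d : ∀ i : ℕ, P (i + 1) ⟶ P i) (ε : P 0 ⟶ M),
      (∀ i, Module.Projective Rᵐᵒᵖ (P i)) ∧ Function.Surjective ε.hom ∧
      LinearMap.range (d 0).hom = LinearMap.ker ε.hom ∧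
      (∀ i, LinearMap.range (d (i + 1)).hom = LinearMap.ker (d i).hom) ∧
      (∀ i, n < i → Subsingleton (P i)))
    (h : KrullLE R 2 R) : IsDomain R :=
  result R h0 h1 h2 hL hR fun P Q hP _ hPQ _ => primes_of_krull_two h P Q hP hPQ

end Pool.Agent.Lib.MP_95d09c_al.K2
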