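import Pool.Agent.Lib.MP_95d09c_al.K2.Fin

set_option autoImplicit false

open CategoryTheory

namespace Pool.Agent.Lib.MP_95d09c_al.Retired.KrullOnePrimes

/-- `KrullLE R n M`: the left module `M` has Krull dimension (Gabriel-Rentschler) at most `n`.
Dimension at most `0` means artinian; dimension at most `n + 1` means that in every descending
chain of submodules all but finitely many factors have dimension at most `n`. -/
def KrullLE (R : Type) [Ring R] : ℕ → ∀ (M : Type) [AddCommGroup M] [Module R M], Prop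
  | 0 => fun M _ _ => IsArtinian R M
  | n + 1 => fun M _ _ => ∀ L : ℕ → Submodule R M, Antitone L →
      ∃ N : ℕ, ∀ i, N ≤ i → KrullLE R n (L i ⧸ (L (i + 1)).submoduleOf (L i))

/-- Prime two-sided ideals: `P` is proper, and `a R b ⊆ P` gives `a ∈ P` or `b ∈ P`. -/
def IsPrimeIdeal {R : Type} [Ring R] (P : TwoSidedIdeal R) : Prop :=
  (1 : R) ∉ P ∧ ∀ a b : R, (∀ r : R, a * r * b ∈ P) → a ∈ P ∨ b ∈ P

theorem KrullLE.of_surj {R : Type} [Ring R] (n : ℕ) : ∀ {M M' : Type} [AddCommGroup M]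
    [Module R M] [AddCommGroup M'] [Module R M'] (g : M →ₗ[R] M'), Function.Surjective g →
    KrullLE R n M → KrullLE R n M' := by
  induction n with
  | zero =>
    intro M M' _ _ _ _ g hg h
    have : IsArtinian R M := h
    exact isArtinian_of_surjective M g hg
  | succ n ih =>
    intro M M' _ _ _ _ g hg h L hL
    obtain ⟨N, hN⟩ := h (fun i => (L i).comap g) fun i j hij => Submodule.comap_mono (hL hij)
    refine ⟨N, fun i hi => ih (Submodule.mapQ _ _
      (g.restrict (p := (L i).comap g) (q := L i) fun x hx => hx) fun x hx => hx) ?_ (hN i hi)⟩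
    intro q
    obtain ⟨⟨y, hy⟩, rfl⟩ := Submodule.mkQ_surjective _ q
    obtain ⟨x, rfl⟩ := hg y
    exact ⟨Submodule.Quotient.mk ⟨x, hy⟩, rfl⟩

theorem KrullLE.coker {R : Type} [Ring R] {n : ℕ} {M : Type} [AddCommGroup M] [Module R M]
    (h : KrullLE R (n + 1) M) (f : M →ₗ[R] M) (hf : Function.Injective f) :
    KrullLE R n (M ⧸ LinearMap.range f) := by
  obtain ⟨N, hN⟩ := h (fun i => LinearMap.range (f ^ i)) (antitone_nat_of_succ_le fun i => by
    rintro _ ⟨x, rfl⟩
    exact ⟨f x, by rw [pow_succ]; rfl⟩)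
  have hi : Function.Injective (f ^ N) := by
    rw [Module.End.coe_pow]
    exact hf.iterate N
  let e := LinearEquiv.ofInjective (f ^ N) hi
  refine KrullLE.of_surj n (Submodule.mapQ _ _ e.symm.toLinearMap ?_) ?_ (hN N le_rfl)
  · rintro ⟨_, x, rfl⟩ ⟨y, hy⟩
    refine ⟨y, e.injective ?_⟩
    rw [LinearEquiv.coe_coe, e.apply_symm_apply]
    refine Subtype.ext ?_
    rw [pow_succ] at hy
    exact hy
  · intro q
    obtain ⟨x, rfl⟩ := Submodule.mkQ_surjective _ q
    refine ⟨Submodule.Quotient.mk (e x), ?_⟩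
    rw [Submodule.mapQ_apply, LinearEquiv.coe_coe, e.symm_apply_apply]
    rfl

/-- Let `R` be a (possibly noncommutative) local ring, left and right noetherian, of finite left
and right global dimension. If `R / Q` has left Krull dimension at most one for every prime ideal
`Q` that properly contains a prime ideal and satisfies `Q x = 0` for some `x ≠ 0`, then `R` is a
domain. -/
theorem result :
    ∀ (R : Type) [Ring R],
      IsLocalRing R → IsNoetherianRing R → IsNoetherianRing Rᵐᵒᵖ →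
      (∃ n : ℕ, ∀ M : ModuleCat.{0} R, ∃ (P : ℕ → ModuleCat.{0} R)
          (d : ∀ i : ℕ, P (i + 1) ⟶ P i) (ε : P 0 ⟶ M),
          (∀ i, Module.Projective R (P i)) ∧ Function.Surjective ε.hom ∧
          LinearMap.range (d 0).hom = LinearMap.ker ε.hom ∧
          (∀ i, LinearMap.range (d (i + 1)).hom = LinearMap.ker (d i).hom) ∧
          (∀ i, n < i → Subsingleton (P i))) →
      (∃ n : ℕ, ∀ M : ModuleCat.{0} Rᵐᵒᵖ, ∃ (P : ℕ → ModuleCat.{0} Rᵐᵒᵖ)
          (d : ∀ i : ℕ, P (i + 1) ⟶ P i) (ε : P 0 ⟶ M),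
          (∀ i, Module.Projective Rᵐᵒᵖ (P i)) ∧ Function.Surjective ε.hom ∧
          LinearMap.range (d 0).hom = LinearMap.ker ε.hom ∧
          (∀ i, LinearMap.range (d (i + 1)).hom = LinearMap.ker (d i).hom) ∧
          (∀ i, n < i → Subsingleton (P i))) →
      (∀ P Q : TwoSidedIdeal R, IsPrimeIdeal P → IsPrimeIdeal Q → P < Q →
        (∃ x : R, x ≠ 0 ∧ ∀ q ∈ Q, q * x = 0) → KrullLE R 1 (R ⧸ Q.asIdeal)) →
      IsDomain R := by
  intro R _ _ _ _ hL hR hK
  have : NoZeroDivisors R := ⟨fun hab =>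
    Pool.Agent.Lib.MP_95d09c_al.K2.eq_zero_or_eq_zero'
      (Pool.Agent.Lib.MP_95d09c_al.K2.gdf_of_res' hL)
      (Pool.Agent.Lib.MP_95d09c_al.K2.gdf_of_res' hR)
      (fun P Q hP hQ hPQ hx c hc => Pool.Agent.Lib.MP_95d09c_al.K2.words_of_artinian
        ((hK P Q hP hQ hPQ hx).coker (Pool.Agent.Lib.MP_95d09c_al.rho Q c)
          (Pool.Agent.Lib.MP_95d09c_al.rho_inj hc))) hab⟩
  exact NoZeroDivisors.to_isDomain R

end Pool.Agent.Lib.MP_95d09c_al.Retired.KrullOnePrimes
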